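import Pool.Agent.Helper87.CR.SIGC
import Pool.Agent.Helper57.CR.CNT
import Pool.Agent.Helper4.CR.IDENT
import Pool.Agent.Helper5.CR.CLUS

/-! Module CR-STAR: the inequality for sets of regions. -/

namespace Pool.Agent.Helper77.CR

open Pool.Agent.Helper9.FA (Item Cor Ang wfP labels)
open Pool.Agent.Helper9.TW (Lab Conn)
open Pool.Agent.Helper28.TX (PV Pot)

variable {α : Type}

namespace STARaux

/-- the potential of the set of regions -/
lemma potR {P : List (Item α)} {c0 c1 : ℕ} {θ : List (PV ℕ)} {e : List (Bool × ℕ × ℕ)}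
    (hU : Uni P c0 c1 [c0, c1] θ e) {R : Finset ℕ} (hR : R ⊆ All c0 c1 θ e) :
    Pot false false P [false, false] (θ.map (PV.map fun x => decide (x ∈ R)))
      (mE (fun x => decide (x ∈ R)) e) := by
  have h := pot_map (fun x => decide (x ∈ R)) hU.pot
  have h0 : decide (c0 ∈ R) = false := by
    rw [decide_eq_false_iff_not]
    intro h
    have := hR h
    simp [All] at this
  have h1 : decide (c1 ∈ R) = false := by
    rw [decide_eq_false_iff_not]
    intro h
    have := hR h
    simp [All] at this
  simp only [List.map_cons, List.map_nil, h0, h1] at h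
  exact h

/-- the identity for the numbers -/
lemma ident' {P : List (Item α)} (hc : Conn P) {c0 c1 : ℕ} {θ : List (PV ℕ)}
    {e : List (Bool × ℕ × ℕ)} (hU : Uni P c0 c1 [c0, c1] θ e) {R : Finset ℕ}
    (hR : R ⊆ All c0 c1 θ e) :
    (NT θ R : ℤ) - 2 * R.card =
      (((θ.map (PV.map fun x => decide (x ∈ R))).map kap).sum : ℤ) -
        2 * EC (θ.map (PV.map fun x => decide (x ∈ R))) (mE (fun x => decide (x ∈ R)) e) := by
  have h1 := ident (potR hU hR)
  rw [EU_card hc hU hR, List.map_map] at h1
  exact h1

/-- splitting at one vertex -/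
lemma tw_split {R R1 R2 : Finset ℕ} (hd : Disjoint R1 R2) (hu : R1 ∪ R2 = R) (q : PV ℕ)
    (h : ¬ BT (q.map fun x => decide (x ∈ R)) →
      (∀ x ∈ cor q, x ∉ R1) ∨ (∀ x ∈ cor q, x ∉ R2)) :
    tw (q.map fun x => decide (x ∈ R)) =
      tw (q.map fun x => decide (x ∈ R1)) + tw (q.map fun x => decide (x ∈ R2)) := by
  have hm : ∀ x, x ∈ R ↔ x ∈ R1 ∨ x ∈ R2 := by intro x; rw [← hu, Finset.mem_union]
  by_cases hb : BT (q.map fun x => decide (x ∈ R))
  · obtain ⟨hL, hR', hB, hT⟩ := hb
    simp only [PV.map, decide_eq_false_iff_not, decide_eq_true_eq] at hL hR' hB hT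
    have hL1 : q.L ∉ R1 := fun h => hL ((hm _).2 (Or.inl h))
    have hL2 : q.L ∉ R2 := fun h => hL ((hm _).2 (Or.inr h))
    have hR1 : q.R ∉ R1 := fun h => hR' ((hm _).2 (Or.inl h))
    have hR2 : q.R ∉ R2 := fun h => hR' ((hm _).2 (Or.inr h))
    have key : ∀ x, x ∈ R → (decide (x ∈ R1)).toNat + (decide (x ∈ R2)).toNat = 1 := by
      intro x hx
      rcases (hm x).1 hx with h | h
      · have : x ∉ R2 := fun h' => Finset.disjoint_left.1 hd h h'
        simp [h, this]
      · have : x ∉ R1 := fun h' => Finset.disjoint_left.1 hd h' h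
        simp [h, this]
    have kB := key _ hB
    have kT := key _ hT
    simp only [tw, PV.map, hL, hR', hB, hT, hL1, hL2, hR1, hR2, decide_false, Bool.false_or,
      decide_true, Bool.toNat_true]
    omega
  · have h4 := h hb
    have aux : ∀ S S' : Finset ℕ, (∀ x, x ∈ R ↔ x ∈ S ∨ x ∈ S') → (∀ x ∈ cor q, x ∉ S') →
        tw (q.map fun x => decide (x ∈ R)) = tw (q.map fun x => decide (x ∈ S)) +
          tw (q.map fun x => decide (x ∈ S')) := by
      intro S S' hm' h
      have e1 : ∀ x ∈ cor q, decide (x ∈ R) = decide (x ∈ S) := by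
        intro x hx
        have := h x hx
        simp [hm', this]
      have e2 : ∀ x ∈ cor q, decide (x ∈ S') = false := by
        intro x hx
        simp [h x hx]
      have a1 := e1 q.L (by simp [cor])
      have a2 := e1 q.B (by simp [cor])
      have a3 := e1 q.R (by simp [cor])
      have a4 := e1 q.T (by simp [cor])
      have b1 := e2 q.L (by simp [cor])
      have b2 := e2 q.B (by simp [cor])
      have b3 := e2 q.R (by simp [cor])
      have b4 := e2 q.T (by simp [cor])
      simp only [tw, PV.map, a1, a2, a3, a4, b1, b2, b3, b4]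
      simp
    rcases h4 with h4 | h4
    · rw [aux R2 R1 (fun x => (hm x).trans or_comm) h4, add_comm]
    · exact aux R1 R2 hm h4

/-- if a vertex has no corner in `R2` then it looks the same for `R` and `R1` -/
lemma map_eq {R R1 R2 : Finset ℕ} (hm : ∀ x, x ∈ R ↔ x ∈ R1 ∨ x ∈ R2) {q : PV ℕ}
    (h : ∀ x ∈ cor q, x ∉ R2) :
    (q.map fun x => decide (x ∈ R)) = (q.map fun x => decide (x ∈ R1)) := by
  have e1 : ∀ x ∈ cor q, decide (x ∈ R) = decide (x ∈ R1) := by
    intro x hx
    have := h x hx
    simp [hm, this]
  have a1 := e1 q.L (by simp [cor])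
  have a2 := e1 q.B (by simp [cor])
  have a3 := e1 q.R (by simp [cor])
  have a4 := e1 q.T (by simp [cor])
  simp only [PV.map, a1, a2, a3, a4]

lemma NT_split {θ : List (PV ℕ)} {R R1 R2 : Finset ℕ} (hd : Disjoint R1 R2) (hu : R1 ∪ R2 = R)
    (h : ∀ q ∈ θ, ¬ BT (q.map fun x => decide (x ∈ R)) →
      (∀ x ∈ cor q, x ∉ R1) ∨ (∀ x ∈ cor q, x ∉ R2)) : NT θ R = NT θ R1 + NT θ R2 := by
  unfold NT
  rw [← List.sum_map_add]
  congr 1
  exact List.map_congr_left fun q hq => tw_split hd hu q (h q hq)

/-- the two parts are smaller -/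
lemma parts {R R1 R2 : Finset ℕ} (hd : Disjoint R1 R2) (hu : R1 ∪ R2 = R) (hn1 : R1.Nonempty)
    (hn2 : R2.Nonempty) : R1 ⊆ R ∧ R2 ⊆ R ∧ R1.card < R.card ∧ R2.card < R.card ∧
      R.card = R1.card + R2.card := by
  have h := Finset.card_union_of_disjoint hd
  rw [hu] at h
  have h1 := hn1.card_pos
  have h2 := hn2.card_pos
  refine ⟨hu ▸ Finset.subset_union_left, hu ▸ Finset.subset_union_right, ?_, ?_, h⟩ <;> omega

/-- some vertex has a corner in `R` -/
lemma exists_corner {P : List (Item α)} (hc : Conn P) {c0 c1 : ℕ} {θ : List (PV ℕ)}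
    {e : List (Bool × ℕ × ℕ)} (hU : Uni P c0 c1 [c0, c1] θ e) {R : Finset ℕ}
    (hR : R ⊆ All c0 c1 θ e) (h0 : R.Nonempty) :
    ∃ q ∈ θ.map (PV.map fun x => decide (x ∈ R)), true ∈ cor q := by
  by_contra hcon
  push Not at hcon
  have ht := touch hc (potR hU hR) hcon
  obtain ⟨x, hx⟩ := h0
  have hx' := hR hx
  simp only [All, ids, Finset.mem_filter, List.mem_toFinset, List.mem_append, List.mem_flatMap,
    List.mem_cons, List.not_mem_nil, or_false] at hx'
  obtain ⟨(h | h) | h, h1, h2⟩ := hx'
  · rcases h with h | h
    · exact h1 h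
    · exact h2 h
  · obtain ⟨q, hq, hxq⟩ := h
    apply hcon _ (List.mem_map.2 ⟨q, hq, rfl⟩)
    simp only [cor, List.mem_cons, List.not_mem_nil, or_false] at hxq
    simp only [cor, PV.map, List.mem_cons, List.not_mem_nil, or_false]
    rcases hxq with rfl | rfl | rfl | rfl <;> simp [hx]
  · obtain ⟨y, hy, hxy⟩ := h
    have h3 := ht (y.1, decide (y.2.1 ∈ R), decide (y.2.2 ∈ R)) (by
      unfold mE
      exact List.mem_map.2 ⟨y, hy, rfl⟩)
    simp only [decide_eq_false_iff_not] at h3
    rcases hxy with rfl | rfl
    · exact h3.1 hx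
    · exact h3.2 hx

/-- the smoothing given by the defects -/
def fs (q : PV Bool) : Option Bool :=
  if kap q = 0 then none else if kap q = 1 then some true else some false

lemma kap_le (q : PV Bool) : kap q ≤ 2 := by
  obtain ⟨L, B, R, T⟩ := q
  cases L <;> cases B <;> cases R <;> cases T <;> simp [kap]

lemma adm_fs (q : PV Bool) (h : isAdj q = false) : AdmS q (fs q) := by
  obtain ⟨L, B, R, T⟩ := q
  cases L <;> cases B <;> cases R <;> cases T <;> simp [AdmS, fs, kap, isAdj] at h ⊢

lemma count_fs (θ : List (PV Bool)) :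
    (θ.map fs).count (some true) + 2 * (θ.map fs).count (some false) = (θ.map kap).sum := by
  induction θ with
  | nil => simp
  | cons q θ ih =>
    have h2 := kap_le q
    simp only [List.map_cons, List.count_cons, List.sum_cons]
    unfold fs at ih ⊢
    rcases Nat.lt_or_ge (kap q) 1 with h | h
    · have h0 : kap q = 0 := by omega
      simp only [h0, if_true]
      simp only [reduceCtorEq, beq_iff_eq, if_false]
      omega
    · rcases Nat.lt_or_ge (kap q) 2 with h' | h'
      · have h0 : kap q = 1 := by omega
        simp only [h0, one_ne_zero, if_false, if_true]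
        simp only [beq_self_eq_true, if_true, beq_iff_eq, Option.some.injEq, Bool.true_eq_false,
          if_false]
        omega
      · have h0 : kap q = 2 := by omega
        simp only [h0, OfNat.ofNat_ne_zero, if_false, OfNat.ofNat_ne_one]
        simp only [beq_self_eq_true, if_true, beq_iff_eq, Option.some.injEq, Bool.false_eq_true,
          if_false]
        omega

/-- the number of neighbouring pairs is at most the number of defects, and in case of equality there
are no others -/
lemma adj_le (θ : List (PV Bool)) : (θ.filter isAdj).length ≤ (θ.map kap).sum ∧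
    ((θ.map kap).sum ≤ (θ.filter isAdj).length → ∀ q ∈ θ, isAdj q = false → kap q = 0) := by
  induction θ with
  | nil => simp
  | cons q θ ih =>
    have hq : isAdj q = true → kap q = 1 := by
      obtain ⟨L, B, R, T⟩ := q
      cases L <;> cases B <;> cases R <;> cases T <;> simp [isAdj, kap]
    cases ha : isAdj q
    · rw [List.filter_cons_of_neg (by simp [ha])]
      simp only [List.map_cons, List.sum_cons, List.mem_cons, forall_eq_or_imp]
      refine ⟨by omega, fun h => ⟨fun _ => by omega, ih.2 (by omega)⟩⟩
    · rw [List.filter_cons_of_pos ha]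
      have := hq ha
      simp only [List.map_cons, List.sum_cons, List.mem_cons, forall_eq_or_imp, List.length_cons]
      refine ⟨by omega, fun h => ⟨fun h' => by simp [ha] at h', ih.2 (by omega)⟩⟩

lemma bad_bt (q : PV Bool) (h : Bad q) (hk : isAdj q = false → kap q = 0) : BT q := by
  obtain ⟨L, B, R, T⟩ := q
  cases L <;> cases B <;> cases R <;> cases T <;> simp [Bad, BT, isAdj, kap] at h hk ⊢

lemma forall₂_fs {θ : List (PV Bool)} (h : ∀ q ∈ θ, isAdj q = false) :
    List.Forall₂ AdmS θ (θ.map fs) := by
  induction θ with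
  | nil => exact List.Forall₂.nil
  | cons q θ ih =>
    exact List.Forall₂.cons (adm_fs q (h q List.mem_cons_self))
      (ih fun q' h' => h q' (List.mem_cons_of_mem _ h'))

lemma nBT_set {θ : List (PV Bool)} : ∀ {i : ℕ} (hi : i < θ.length), BT θ[i] →
    1 ≤ nBT ((List.replicate θ.length false).set i true) θ := by
  induction θ with
  | nil => intro i hi; simp at hi
  | cons q θ ih =>
    intro i hi hB
    cases i with
    | zero =>
      simp only [List.getElem_cons_zero] at hB
      simp [nBT, List.replicate_succ, hB]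
    | succ i =>
      simp only [List.getElem_cons_succ] at hB
      have := ih (by simpa using hi) hB
      simp only [nBT, List.length_cons, List.replicate_succ, List.set_cons_succ,
        List.zipWith_cons_cons, List.sum_cons] at this ⊢
      omega

end STARaux

open STARaux

theorem red_conn {P : List (Item α)} (h : Red P) : Conn P := by
  have h1 := h (List.replicate (labels P).length none) (by simp) (Or.inl (by
    simp [List.count_replicate]))
  have h2 : ∀ (n : ℕ) (P : List (Item α)), n = (labels P).length →
      smo (List.replicate n none) P = P := by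
    intro n P
    induction P generalizing n with
    | nil => intro _; simp [smo]
    | cons x P ih =>
      intro hn
      cases x with
      | cup k => simp only [smo, List.cons.injEq, true_and]; exact ih n (by simpa [labels] using hn)
      | cap k => simp only [smo, List.cons.injEq, true_and]; exact ih n (by simpa [labels] using hn)
      | box k a =>
        cases n with
        | zero => simp [labels] at hn
        | succ n =>
          rw [List.replicate_succ]
          simp only [smo, List.cons.injEq, true_and]
          exact ih n (by simpa [labels] using hn)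
  rwa [h2 _ _ rfl] at h1

theorem star {P : List (Item α)} (hr : Red P) {c0 c1 : ℕ} {θ : List (PV ℕ)}
    {e : List (Bool × ℕ × ℕ)} (hU : Uni P c0 c1 [c0, c1] θ e) {R : Finset ℕ}
    (hR : R ⊆ All c0 c1 θ e) (h0 : R.Nonempty) :
    2 * R.card ≤ NT θ R ∧
      (NT θ R = 2 * R.card → ∀ q ∈ θ, ¬ Bad (q.map fun x => decide (x ∈ R))) := by
  have hc := red_conn hr
  induction hn : R.card using Nat.strong_induction_on generalizing R with
  | _ n ih =>
    subst hn
    have hid := ident' hc hU hR
    by_cases hE : 2 ≤ EC (θ.map (PV.map fun x => decide (x ∈ R))) (mE (fun x => decide (x ∈ R)) e)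
    · obtain ⟨R1, R2, hd, hu, hn1, hn2, hF⟩ := clus hU hR (δ := List.replicate θ.length false)
        (by simp) (by
          have : (0 : ℤ) ≤ nBT (List.replicate θ.length false)
            (θ.map (PV.map fun x => decide (x ∈ R))) := Int.natCast_nonneg _
          linarith)
      obtain ⟨s1, s2, l1, l2, hcard⟩ := parts hd hu hn1 hn2
      have hm : ∀ x, x ∈ R ↔ x ∈ R1 ∨ x ∈ R2 := by intro x; rw [← hu, Finset.mem_union]
      have hF' : ∀ q ∈ θ, (∀ x ∈ cor q, x ∉ R1) ∨ (∀ x ∈ cor q, x ∉ R2) := by
        intro q hq
        obtain ⟨i, hi, rfl⟩ := List.getElem_of_mem hq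
        have h1 := (List.forall₂_iff_get.1 hF).2 i (by simpa using hi) hi
        simp only [List.get_eq_getElem, List.getElem_replicate] at h1
        exact h1 (by simp)
      have hNT := NT_split hd hu (θ := θ) fun q hq _ => hF' q hq
      have i1 := ih _ l1 (s1.trans hR) hn1 rfl
      have i2 := ih _ l2 (s2.trans hR) hn2 rfl
      refine ⟨by omega, fun heq q hq hbad => ?_⟩
      rcases hF' q hq with h | h
      · rw [map_eq (fun x => (hm x).trans or_comm) h] at hbad
        exact i2.2 (by omega) q hq hbad
      · rw [map_eq hm h] at hbad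
        exact i1.2 (by omega) q hq hbad
    · by_contra hcon
      have hle : NT θ R ≤ 2 * R.card := by
        by_contra h
        exact hcon ⟨by omega, fun h' => by omega⟩
      have hk : ((θ.map (PV.map fun x => decide (x ∈ R))).map kap).sum ≤ 2 := by omega
      have hpot := potR hU hR
      have hadj : ∃ q ∈ θ.map (PV.map fun x => decide (x ∈ R)), isAdj q = true := by
        by_contra h
        push Not at h
        obtain ⟨q, hq, hq'⟩ := exists_corner hc hU hR h0
        have hcnt := count_fs (θ.map (PV.map fun x => decide (x ∈ R)))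
        refine sigC hpot (forall₂_fs fun q hq => by simpa using h q hq) (hr _ ?_ ?_) q hq hq'
        · rw [List.length_map, pot_len hpot]
        · omega
      have hpar := par hpot
      obtain ⟨ha1, ha2⟩ := adj_le (θ.map (PV.map fun x => decide (x ∈ R)))
      have hpos : 0 < ((θ.map (PV.map fun x => decide (x ∈ R))).filter isAdj).length := by
        obtain ⟨q, hq, hq'⟩ := hadj
        exact List.length_pos_of_mem (List.mem_filter.2 ⟨hq, hq'⟩)
      have h2 : 2 ≤ ((θ.map (PV.map fun x => decide (x ∈ R))).filter isAdj).length := by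
        obtain ⟨m, hm⟩ := hpar
        omega
      have hall := ha2 (by omega)
      have heq : NT θ R = 2 * R.card := by omega
      have hE1 : EC (θ.map (PV.map fun x => decide (x ∈ R))) (mE (fun x => decide (x ∈ R)) e) = 1 := by
        omega
      have hbad : ∃ q ∈ θ, Bad (q.map fun x => decide (x ∈ R)) := by
        by_contra h
        push Not at h
        exact hcon ⟨heq.ge, fun _ => h⟩
      obtain ⟨q, hq, hb⟩ := hbad
      have hbt := bad_bt _ hb (hall _ (List.mem_map.2 ⟨q, hq, rfl⟩))
      obtain ⟨i, hi, rfl⟩ := List.getElem_of_mem hq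
      obtain ⟨R1, R2, hd, hu, hn1, hn2, hF⟩ := clus hU hR
        (δ := (List.replicate θ.length false).set i true) (by simp) (by
          have h3 := nBT_set (θ := θ.map (PV.map fun x => decide (x ∈ R))) (i := i)
            (by simpa using hi) (by simpa using hbt)
          simp only [List.length_map] at h3
          have h4 : (1 : ℤ) ≤ nBT ((List.replicate θ.length false).set i true)
            (θ.map (PV.map fun x => decide (x ∈ R))) := by exact_mod_cast h3
          linarith)
      obtain ⟨s1, s2, l1, l2, hcard⟩ := parts hd hu hn1 hn2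
      have hm : ∀ x, x ∈ R ↔ x ∈ R1 ∨ x ∈ R2 := by intro x; rw [← hu, Finset.mem_union]
      have hNT := NT_split hd hu (θ := θ) fun q hq hnb => by
        obtain ⟨j, hj, rfl⟩ := List.getElem_of_mem hq
        have h1 := (List.forall₂_iff_get.1 hF).2 j (by simpa using hj) hj
        simp only [List.get_eq_getElem] at h1
        exact h1 (fun h => hnb h.2)
      have i1 := ih _ l1 (s1.trans hR) hn1 rfl
      have i2 := ih _ l2 (s2.trans hR) hn2 rfl
      have t1 := i1.2 (by omega) _ hq
      have t2 := i2.2 (by omega) _ hq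
      obtain ⟨hL, hR', hB, hT⟩ := hbt
      simp only [PV.map, decide_eq_false_iff_not, decide_eq_true_eq] at hL hR' hB hT
      have hL1 : θ[i].L ∉ R1 := fun h => hL ((hm _).2 (Or.inl h))
      have hL2 : θ[i].L ∉ R2 := fun h => hL ((hm _).2 (Or.inr h))
      have hR1 : θ[i].R ∉ R1 := fun h => hR' ((hm _).2 (Or.inl h))
      have hR2 : θ[i].R ∉ R2 := fun h => hR' ((hm _).2 (Or.inr h))
      rcases (hm _).1 hB with h | h
      · exact t1 (Or.inl (by simp [PV.map, hL1, hR1, h]))
      · exact t2 (Or.inl (by simp [PV.map, hL2, hR2, h]))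

end Pool.Agent.Helper77.CR
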