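import Pool.Agent.Helper77.CR.Defs2
import Pool.Agent.Helper4.CR.SIG

/-!
# CR-SIGC: from marked regions to labellings of smoothed patterns
-/

namespace Pool.Agent.Helper77.CR

open Pool.Agent.Helper9.FA (Item Cor Ang wfP labels)
open Pool.Agent.Helper9.TW (Lab Conn)
open Pool.Agent.Helper28.TX (PV Pot)

variable {α : Type}

namespace SigC

open Sig

lemma corners {q : PV Bool} (h1 : (q.L || q.T) = false) (h2 : (q.T || q.R) = false)
    (h3 : (q.L || q.B) = false) : true ∉ cor q := by
  obtain ⟨L, B, R, T⟩ := q
  cases L <;> cases B <;> cases R <;> cases T <;> simp_all [cor]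

lemma kap_zero {q : PV Bool} (h : kap q = 0) : (q.T || q.R) = (q.L || q.T) ∧
    (q.L || q.B) = (q.L || q.T) ∧ (q.B || q.R) = (q.L || q.T) := by
  obtain ⟨L, B, R, T⟩ := q
  cases L <;> cases B <;> cases R <;> cases T <;> simp_all [kap]

lemma main {P : List (Item α)} {c : List Bool} {θ : List (PV Bool)}
    {e : List (Bool × Bool × Bool)} (h : Pot false false P c θ e) {f : List (Option Bool)}
    (hf : List.Forall₂ AdmS θ f) : ∃ L, Lab (smo f P) L ((ors c).map fz) ∧
      ((∀ s ∈ L, s = 0) → (∀ b ∈ ors c, b = false) ∧ ∀ q ∈ θ, true ∉ cor q) := by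
  induction h generalizing f with
  | nil =>
    refine ⟨[], ?_, by simp [ors]⟩
    have : smo f ([] : List (Item α)) = [] := by cases f <;> rfl
    rw [this]
    simpa [ors, fz] using (Lab.nil : Lab ([] : List (Item α)) [] [0])
  | @cup P l r a m θ e h ih =>
    obtain ⟨L, h1, h2⟩ := ih hf
    rw [ors3, Bool.or_comm m a] at h1 h2
    rw [List.map_append, List.map_cons, List.map_cons] at h1
    have h3 := Lab.cup h1
    rw [List.length_map, ors_length, ← List.map_append, ← ors_append] at h3
    have hs : smo f (.cup l.length :: P) = .cup l.length :: smo f P := by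
      cases f <;> rfl
    refine ⟨L, by rw [hs]; exact h3, fun hL => ?_⟩
    obtain ⟨h4, h5⟩ := h2 hL
    refine ⟨fun b hb => h4 b ?_, h5⟩
    rw [ors_append] at hb
    simp only [List.mem_append, List.mem_cons] at hb ⊢
    tauto
  | @cap P l r a m θ e h ih =>
    obtain ⟨L, h1, h2⟩ := ih hf
    rw [ors_append] at h1 h2
    rw [List.map_append] at h1
    have h3 := Lab.cap (s := fz (a || m)) h1
    rw [List.length_map, ors_length] at h3
    have hs : smo f (.cap l.length :: P) = .cap l.length :: smo f P := by
      cases f <;> rfl
    refine ⟨fz (a || m) :: L, ?_, fun hL => ?_⟩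
    · rw [hs, ors3, Bool.or_comm m a, List.map_append, List.map_cons, List.map_cons]
      exact h3
    · obtain ⟨h4, h5⟩ := h2 fun x hx => hL x (List.mem_cons_of_mem _ hx)
      have h6 : (a || m) = false := fz_eq (hL _ List.mem_cons_self)
      refine ⟨fun b hb => ?_, h5⟩
      rw [ors3, Bool.or_comm m a] at hb
      simp only [List.mem_append, List.mem_cons] at hb
      rcases hb with hb | hb | hb | hb
      · exact h4 b (List.mem_append_left _ hb)
      · rw [hb]; exact h6
      · rw [hb]; exact h6
      · exact h4 b (List.mem_append_right _ hb)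
  | @box P l r x q θ e h ih =>
    cases hf with
    | @cons _ o _ f' hq hf' =>
      obtain ⟨L, h1, h2⟩ := ih hf'
      rw [ors3] at h1 h2
      rw [List.map_append, List.map_cons, List.map_cons] at h1
      have hmem : (∀ s ∈ L, s = 0) → (q.L || q.T) = false ∧ (q.T || q.R) = false := fun hL =>
        ⟨(h2 hL).1 _ (by simp), (h2 hL).1 _ (by simp)⟩
      rcases o with _ | b
      · -- the vertex is kept
        obtain ⟨k1, k2, k3⟩ := kap_zero (show kap q = 0 from hq)
        rw [k1] at h1
        have h3 := Lab.box (a := x) h1
        rw [List.length_map, ors_length] at h3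
        refine ⟨L, ?_, fun hL => ?_⟩
        · rw [ors3, k2, k3, List.map_append, List.map_cons, List.map_cons]
          exact h3
        · obtain ⟨h4, h5⟩ := h2 hL
          obtain ⟨m1, m2⟩ := hmem hL
          have m3 : (q.L || q.B) = false := by rw [k2, m1]
          have m4 : (q.B || q.R) = false := by rw [k3, m1]
          refine ⟨fun b hb => ?_, fun q' hq' => ?_⟩
          · rw [ors3] at hb
            simp only [List.mem_append, List.mem_cons] at hb
            rcases hb with hb | hb | hb | hb
            · exact h4 b (List.mem_append_left _ hb)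
            · rw [hb]; exact m3
            · rw [hb]; exact m4
            · exact h4 b (by simp [hb])
          · rcases List.mem_cons.1 hq' with rfl | hq'
            · exact corners m1 m2 m3
            · exact h5 q' hq'
      · cases b
        · -- two vertical strands
          obtain ⟨k1, k2⟩ : (q.L || q.B) = (q.L || q.T) ∧ (q.B || q.R) = (q.T || q.R) := hq
          refine ⟨L, ?_, fun hL => ?_⟩
          · rw [ors3, k1, k2, List.map_append, List.map_cons, List.map_cons]
            exact h1
          · obtain ⟨h4, h5⟩ := h2 hL
            obtain ⟨m1, m2⟩ := hmem hL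
            refine ⟨fun b hb => ?_, fun q' hq' => ?_⟩
            · rw [ors3, k1, k2] at hb
              exact h4 b hb
            · rcases List.mem_cons.1 hq' with rfl | hq'
              · exact corners m1 m2 (k1.trans m1)
              · exact h5 q' hq'
        · -- a maximum and a minimum
          obtain ⟨k1, k2⟩ : (q.L || q.T) = (q.T || q.R) ∧ (q.L || q.B) = (q.B || q.R) := hq
          rw [← k1] at h1
          have h3 := Lab.cap (s := fz (q.L || q.B)) (Lab.cup h1)
          rw [List.length_map, ors_length] at h3
          refine ⟨fz (q.L || q.B) :: L, ?_, fun hL => ?_⟩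
          · rw [ors3, ← k2, List.map_append, List.map_cons, List.map_cons]
            exact h3
          · have hL' : ∀ s ∈ L, s = 0 := fun s hs => hL s (List.mem_cons_of_mem _ hs)
            obtain ⟨h4, h5⟩ := h2 hL'
            obtain ⟨m1, m2⟩ := hmem hL'
            have m3 : (q.L || q.B) = false := fz_eq (hL _ List.mem_cons_self)
            refine ⟨fun b hb => ?_, fun q' hq' => ?_⟩
            · rw [ors3, ← k2] at hb
              simp only [List.mem_append, List.mem_cons] at hb
              rcases hb with hb | hb | hb | hb
              · exact h4 b (List.mem_append_left _ hb)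
              · rw [hb]; exact m3
              · rw [hb]; exact m3
              · exact h4 b (by simp [hb])
            · rcases List.mem_cons.1 hq' with rfl | hq'
              · exact corners m1 m2 m3
              · exact h5 q' hq'

lemma par_main {P : List (Item α)} {c : List Bool} {θ : List (PV Bool)}
    {e : List (Bool × Bool × Bool)} (h : Pot false false P c θ e) :
    Even ((ors c).count true + (θ.filter isAdj).length) := by
  induction h with
  | nil => simp [ors]
  | @cup P l r a m θ e h ih =>
    rw [ors3, Bool.or_comm m a] at ih
    rw [ors_append]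
    simp only [List.count_append, List.count_cons] at ih ⊢
    obtain ⟨k, hk⟩ := ih
    refine ⟨k - (if ((a || m) == true) = true then 1 else 0), ?_⟩
    split_ifs at hk ⊢ <;> omega
  | @cap P l r a m θ e h ih =>
    rw [ors_append] at ih
    rw [ors3, Bool.or_comm m a]
    simp only [List.count_append, List.count_cons] at ih ⊢
    obtain ⟨k, hk⟩ := ih
    refine ⟨k + (if ((a || m) == true) = true then 1 else 0), ?_⟩
    split_ifs <;> omega
  | @box P l r x q θ e h ih =>
    rw [ors3] at ih ⊢
    obtain ⟨L, B, R, T⟩ := q
    rw [List.filter_cons]
    simp only [List.count_append, List.count_cons] at ih ⊢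
    obtain ⟨k, hk⟩ := ih
    rw [Nat.even_iff]
    cases L <;> cases B <;> cases R <;> cases T <;> simp [isAdj] at hk ⊢ <;> omega

end SigC

/-- the strands at marked regions form a labelling of the smoothed pattern -/
theorem sigC {P : List (Item α)} {θ : List (PV Bool)} {e : List (Bool × Bool × Bool)}
    (h : Pot false false P [false, false] θ e) {f : List (Option Bool)}
    (hf : List.Forall₂ AdmS θ f) (hc : Conn (smo f P)) : ∀ q ∈ θ, true ∉ cor q := by
  obtain ⟨L, h1, h2⟩ := SigC.main h hf
  exact (h2 (hc L _ h1)).2

/-- parity -/
theorem par {P : List (Item α)} {θ : List (PV Bool)} {e : List (Bool × Bool × Bool)}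
    (h : Pot false false P [false, false] θ e) : Even (θ.filter isAdj).length := by
  have := SigC.par_main h
  simpa [ors] using this

end Pool.Agent.Helper77.CR
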